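import Pool.Agent.helper80.SG.Spec3

/-!
# Project bl: module BLZ (`d` in `ℤ^k`)
-/

set_option autoImplicit false

namespace Pool.Agent.SG

open Pool.Agent.SV

theorem BLZ (hBLN : BLN_stmt) (hZB : ZB_stmt) : BLZ_stmt := by
  intro k n hk hn hhyp d h1 h2 h3
  obtain ⟨hZ1, hZ2⟩ := hZB k n
  by_cases hneg : ∃ i, d i < 0
  · have hs := (hZ2 d hneg).1
    constructor
    · intro h; exact absurd h hs
    · rintro (⟨h, -⟩ | ⟨-, h⟩)
      · obtain ⟨i, hi⟩ := hneg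
        exact absurd (h i) (by omega)
      · obtain ⟨i, hi⟩ := hneg
        have := h i
        omega
  · have hnn : ∀ i, 0 ≤ d i := fun i => not_lt.1 (fun h => hneg ⟨i, h⟩)
    obtain ⟨e, rfl⟩ : ∃ e : Fin k → ℕ, d = fun i => (e i : ℤ) :=
      ⟨fun i => (d i).toNat, by funext i; exact (Int.toNat_of_nonneg (hnn i)).symm⟩
    have g1 : ¬ (∀ i, n i = 1 ∧ e i = 1) := by
      intro h
      exact h1 (fun i => ⟨(h i).1, by have := (h i).2; show (e i : ℤ) = 1; omega⟩)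
    have g2 : ¬ (k = 2 ∧ (∀ i, 1 ≤ e i ∧ e i ≤ 2) ∧ ∃ i, e i = 2) := by
      rintro ⟨hk2, h, i, hi⟩
      refine h2 ⟨hk2, fun i => ?_, i, ?_⟩
      · have := h i
        show 1 ≤ (e i : ℤ) ∧ (e i : ℤ) ≤ 2
        omega
      · show (e i : ℤ) = 2
        omega
    have g3 : ¬ (k = 3 ∧ ∀ i, e i = 1) := by
      rintro ⟨hk3, h⟩
      exact h3 ⟨hk3, fun i => by have := h i; show (e i : ℤ) = 1; omega⟩
    rw [(hZ1 e).1, hBLN k n hk hn hhyp e g1 g2 g3]
    have hsum : (∑ i, (e i : ℤ)) = ((∑ i, e i : ℕ) : ℤ) := by push_cast; rfl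
    constructor
    · rintro (⟨⟨i, hi⟩, hs⟩ | ⟨hk2, h⟩)
      · refine Or.inl ⟨hnn, ⟨i, ?_⟩, ?_⟩
        · show (e i : ℤ) = 0
          omega
        · show 2 ≤ ∑ i, (e i : ℤ)
          rw [hsum]
          exact_mod_cast hs
      · refine Or.inr ⟨hk2, fun i => ?_⟩
        have := h i
        show (e i : ℤ) = 1
        omega
    · rintro (⟨-, ⟨i, hi⟩, hs⟩ | ⟨hk2, h⟩)
      · refine Or.inl ⟨⟨i, ?_⟩, ?_⟩
        · have h0 : (e i : ℤ) = 0 := hi
          omega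
        · have h0 : 2 ≤ ∑ i, (e i : ℤ) := hs
          rw [hsum] at h0
          exact_mod_cast h0
      · refine Or.inr ⟨hk2, fun i => ?_⟩
        have h0 : (e i : ℤ) = 1 := h i
        omega

end Pool.Agent.SG
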